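import Mathlib

set_option autoImplicit false

namespace Pool.Agent.Results.MP_5675d3_gt.Counter

open Set Ordinal TopologicalSpace

def Noeth {X : Type} (𝒜 : Set (Set X)) : Prop :=
  𝒜.Nonempty ∧ ∅ ∉ 𝒜 ∧ ¬ ∃ A : ℕ → Set X, (∀ n, A n ∈ 𝒜) ∧ StrictMono A

noncomputable def layer {X : Type} (𝒜 : Set (Set X)) : Ordinal.{0} → Set (Set X) :=
  Ordinal.lt_wf.fix fun i L => {A | Maximal (fun B => B ∈ 𝒜 ∧ ∀ j (h : j < i), B ∉ L j h) A}

def exhaust {X : Type} (𝒜 : Set (Set X)) : Set Ordinal.{0} := {α | 𝒜 = ⋃ i < α, layer 𝒜 i}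

lemma mem_layer {X : Type} {𝒜 : Set (Set X)} {i : Ordinal.{0}} {A : Set X} :
    A ∈ layer 𝒜 i ↔ Maximal (fun B => B ∈ 𝒜 ∧ ∀ j < i, B ∉ layer 𝒜 j) A := by
  rw [layer, WellFounded.fix_eq]
  rfl

abbrev top : TopologicalSpace ℝ where
  IsOpen U := 0 ∈ U → Uᶜ.Finite
  isOpen_univ := by simp
  isOpen_inter U V h h' hz := by
    rw [compl_inter]
    exact (h hz.1).union (h' hz.2)
  isOpen_sUnion S h := fun ⟨U, h1, h2⟩ =>
    (h U h1 h2).subset (compl_subset_compl.2 (subset_sUnion_of_mem h1))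

theorem result : ∃ (X : Type) (_ : TopologicalSpace X) (ℬ : Set (Set X)) (α : Ordinal.{0}),
    IsTopologicalBasis ℬ ∧ Noeth ℬ ∧ IsLeast (exhaust ℬ) α ∧ α.card.ord ≠ α ∧
    ∀ ℬ' ⊆ ℬ, IsTopologicalBasis ℬ' → ∀ β ∈ exhaust ℬ', α.card.ord < β := by
  let ℬ : Set (Set ℝ) := {U | (0 ∈ U ∧ Uᶜ.Finite) ∨ ∃ x ≠ 0, U = {x}}
  let := top
  have hs (x : ℝ) (h : x ≠ 0) : IsOpen {x} := fun h' => (h (Eq.symm h')).elim
  have hB : IsTopologicalBasis ℬ := isTopologicalBasis_of_isOpen_of_nhds (by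
    rintro _ (h | ⟨x, h, rfl⟩)
    exacts [fun _ => h.2, hs x h]) fun x U hx hU => by
      by_cases h : 0 ∈ U
      · exact ⟨U, Or.inl ⟨h, hU h⟩, hx, subset_rfl⟩
      · exact ⟨{x}, Or.inr ⟨x, fun h' => h (h' ▸ hx), rfl⟩, rfl, singleton_subset_iff.2 hx⟩
  have hne {U : Set ℝ} (h : U ∈ ℬ) : U.Nonempty := by
    obtain h | ⟨x, -, rfl⟩ := h
    exacts [⟨0, h.1⟩, singleton_nonempty x]
  have hup {U V : Set ℝ} (h : U ∈ ℬ) (h' : V ∈ ℬ) (h1 : U ⊂ V) : Vᶜ.Finite := by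
    obtain h' | ⟨x, -, rfl⟩ := h'
    exacts [h'.2, ((hne h).ne_empty (ssubset_singleton_iff.1 h1)).elim]
  have low : ∀ ℬ' ⊆ ℬ, IsTopologicalBasis ℬ' → ∀ β ∈ exhaust ℬ', ω < β := fun ℬ' h1 h2 β h3 => by
    have h4 (n : ℕ) : ∃ U ∈ ℬ', 0 ∈ U ∧ ∀ j < (n : Ordinal), U ∉ layer ℬ' j := by
      induction n with
      | zero =>
        obtain ⟨U, h4, h5, -⟩ := h2.exists_subset_of_mem_open (mem_univ 0) isOpen_univ
        exact ⟨U, h4, h5, by simp⟩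
      | succ n ih =>
        obtain ⟨U, h4, h5, h6⟩ := ih
        have h7 := h2.isOpen h4 h5
        obtain ⟨y, h8⟩ := ((h7.insert 0).infinite_compl).nonempty
        simp only [mem_compl_iff, mem_insert_iff, not_or, not_not] at h8
        obtain ⟨V, h9, k1, k2⟩ := h2.exists_subset_of_mem_open (u := U \ {y}) ⟨h5, Ne.symm h8.1⟩
          fun _ => (h7.insert y).subset (by grind)
        refine ⟨V, h9, k1, fun j hj h => (k2 ((mem_layer.1 h).2 ⟨h4, fun i hi => h6 i (hi.trans_le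
          (Order.lt_add_one_iff.1 (by simpa using hj)))⟩ (k2.trans sdiff_subset) h8.2)).2 rfl⟩
    choose U k1 k2 k3 using h4
    obtain ⟨x, hx⟩ : ∃ x, x ∉ insert 0 (⋃ n, (U n)ᶜ) := by
      by_contra! h
      exact not_countable_univ (((countable_iUnion fun n =>
        (h2.isOpen (k1 n) (k2 n)).countable).insert 0).mono fun x _ => h x)
    simp only [mem_insert_iff, mem_iUnion, mem_compl_iff, not_or, not_exists, not_not] at hx
    obtain ⟨V, h4, h5, h6⟩ := h2.exists_subset_of_mem_open (mem_singleton x) (hs x hx.1)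
    obtain ⟨i, h7, h8⟩ := mem_iUnion₂.1 (h3 ▸ h4 : V ∈ ⋃ i < β, layer ℬ' i)
    refine lt_of_le_of_lt (le_of_not_gt fun h => ?_) h7
    obtain ⟨n, rfl⟩ := lt_omega0.1 h
    exact hx.1 (h6 ((mem_layer.1 h8).2 ⟨k1 n, k3 n⟩ (h6.trans (by simp [hx.2])) (k2 n))).symm
  have hc : (ω + 1).card.ord = ω := by simp
  have fin (n : ℕ) : ∀ U ∈ ℬ, Uᶜ.Finite → Uᶜ.ncard = n → ∃ j ≤ (n : Ordinal), U ∈ layer ℬ j := by
    induction n using Nat.strong_induction_on with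
    | _ n ih =>
      intro U h1 h2 h3
      by_contra! h
      refine h n le_rfl (mem_layer.2 ⟨⟨h1, fun j hj => h j hj.le⟩, fun V hV h4 => by_contra
        fun h5 => ?_⟩)
      have h6 := h3 ▸ ncard_lt_ncard (compl_lt_compl_iff_lt.2 ⟨h4, h5⟩) h2
      obtain ⟨j, h7, h8⟩ := ih _ h6 V hV.1 (hup h1 hV.1 ⟨h4, h5⟩) rfl
      exact hV.2 j (h7.trans_lt (by exact_mod_cast h6)) h8
  refine ⟨ℝ, top, ℬ, ω + 1, hB, ⟨⟨univ, Or.inl (by simp)⟩, fun h => (hne h).ne_empty rfl,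
    fun ⟨A, h1, h2⟩ => not_strictAnti_of_wellFoundedLT (fun n => (A (n + 1))ᶜ.ncard)
      fun m n h => ncard_lt_ncard (compl_lt_compl_iff_lt.2 (h2 (by omega)))
        (hup (h1 m) (h1 _) (h2 m.lt_succ_self))⟩, ⟨subset_antisymm (fun U hU => ?_)
      (iUnion₂_subset fun i _ U h => (mem_layer.1 h).1.1),
    fun β h => Order.add_one_le_iff.2 (low ℬ subset_rfl hB β h)⟩,
    by rw [hc]; exact (lt_add_one _).ne, hc.symm ▸ low⟩
  by_contra h
  simp only [mem_iUnion, not_exists, Order.lt_add_one_iff] at h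
  refine h ω le_rfl (mem_layer.2 ⟨⟨hU, fun j hj => h j hj.le⟩, fun V hV h4 => by_contra
    fun h5 => ?_⟩)
  obtain ⟨j, h7, h8⟩ := fin _ V hV.1 (hup hU hV.1 ⟨h4, h5⟩) rfl
  exact hV.2 j (h7.trans_lt (natCast_lt_omega0 _)) h8

end Pool.Agent.Results.MP_5675d3_gt.Counter
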